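import Pool.Agent.Helper39.T3.Step

/-! # T3, MOV: the moving centre -/

set_option autoImplicit false

open MvPolynomial

namespace Pool.Agent.Helper39.T3.MOV

open Height Height.AdmissibleAbsValues
open Pool.Agent.Helper29.BL Pool.Agent.Helper92.Ru Pool.Agent.Helper42.SG
open Pool.Agent.Helper5.UN (hv)
open Pool.Agent.Helper60.T3 Pool.Agent.Helper39.T3

noncomputable section

/-- the normalised zeros of a form -/
theorem mem_of_zero {K Ω : Type} [Field K] [Field Ω] [Algebra K Ω] {σ : Type} [Fintype σ]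
    [DecidableEq σ] {i k i' : σ} (hu : (Finset.univ : Finset σ) = {i, k, i'}) (hik : i ≠ k)
    (hii : i ≠ i') (hki : k ≠ i') (t s : Ω) (ht : Transcendental K t) (p : MvPolynomial σ K)
    (hp : p ≠ 0) (a : σ → ℕ) (hpa : ∀ l, p.degreeOf l ≤ a l) (ha : a i' = 0)
    (y : σ → Fin 2 → Ω) (hy1 : y i = ![t, 1]) (hy2 : y k = ![s, 1])
    (h0 : hv (algebraMap K Ω) a p y = 0) :
    (Fp i k t p).IsRoot s ∧ Fp i k t p ≠ 0 := by
  have hd : p.degreeOf i' = 0 := by
    have := hpa i'
    omega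
  refine ⟨?_, Fp_ne hu ht p hp hd⟩
  rw [Polynomial.IsRoot, ← hv_eq_eval hu hik hii hki t s p a ha hd y hy1 hy2]
  exact h0

theorem nA {D E a b d N : ℕ} (hN : N = 2 * E * D + E + D) (h1 : a ≤ D) (h2 : b ≤ E) (h3 : d ≤ D) :
    a * b + E * d ≤ N := by
  have h4 := Nat.mul_le_mul h1 h2
  have h5 := Nat.mul_le_mul_left E h3
  rw [hN]
  nlinarith

theorem nB {N E x y : ℕ} (hx : x ≤ N) (hy : y ≤ N) : x * E + E * y ≤ 2 * E * N + N + E := by
  have h4 := Nat.mul_le_mul_right E hx
  have h5 := Nat.mul_le_mul_left E hy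
  nlinarith

theorem nC {N E x y z : ℕ} (hx : x ≤ N) (hy : y ≤ N) (hz : z ≤ x * E + E * y) :
    z + y + E ≤ 2 * E * N + N + E := by
  have h4 := Nat.mul_le_mul_right E hx
  have h5 := Nat.mul_le_mul_left E hy
  nlinarith

theorem nD {N E D : ℕ} (hN : N = 2 * E * D + E + D) : E ≤ N ∧ D ≤ N := by
  constructor
  · rw [hN]; nlinarith [Nat.zero_le (2 * E * D)]
  · rw [hN]; nlinarith [Nat.zero_le (2 * E * D)]

theorem rA {cB cP cQ L : ℝ} (E D N : ℕ) (hcB0 : 0 ≤ cB) (hcP0 : 0 ≤ cP) (hcQ0 : 0 ≤ cQ)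
    (hL0 : 0 ≤ L) :
    (cB + N * cQ + E * (cB + D * cP + E * L)) + (cB + D * cP + E * L) ≤
      (2 * cB + N * cQ + D * cP + E * cB + E * (D * cP) + E + E * E) * (1 + L) := by
  have hE0 : (0 : ℝ) ≤ E := Nat.cast_nonneg _
  have hD0 : (0 : ℝ) ≤ D := Nat.cast_nonneg _
  have hN0 : (0 : ℝ) ≤ (N : ℝ) := Nat.cast_nonneg _
  have x1 : 0 ≤ cB * L := mul_nonneg hcB0 hL0
  have x2 : 0 ≤ N * cQ * L := by positivity
  have x3 : 0 ≤ D * cP * L := by positivity
  have x4 : 0 ≤ E * cB * L := by positivity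
  have x5 : 0 ≤ E * (D * cP) * L := by positivity
  nlinarith

theorem rS {A1 A2 c : ℝ} (h1 : 1 ≤ A1) (h2 : 1 ≤ A2) (hc : c ≤ A2) : c ≤ A2 * A1 := by
  nlinarith

/-- the local inequality from the two steps -/
theorem rL {Mi Mk Mi' P Q H0 R1x R0x A1 A2 B1 B2 : ℝ} {E f1 f2 g1 D' : ℕ} (hMi : 1 ≤ Mi)
    (hMk : 1 ≤ Mk) (hMi' : 1 ≤ Mi') (hP : 0 ≤ P) (hQ : 0 ≤ Q) (hA1 : 1 ≤ A1) (hA2 : 1 ≤ A2)
    (hB1 : B1 ≤ A1) (hB2 : B2 ≤ A2) (hH : H0 = 0)
    (hl1 : R1x ≤ B1 * (Mi ^ f1 * Mi' ^ g1) * max (P / Mk ^ E) H0)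
    (hl2 : R0x ≤ B2 * Mi ^ f2 * max (Q / Mi' ^ E) (R1x / Mi' ^ g1)) (hD : f2 + f1 + E ≤ D') :
    R0x ≤ A2 * A1 * Mi ^ D' * max (P / (Mi * Mk) ^ E) (Q / (Mi * Mi') ^ E) := by
  set T := max (P / (Mi * Mk) ^ E) (Q / (Mi * Mi') ^ E) with hT
  have hT0 : 0 ≤ T := le_trans (by positivity) (le_max_left _ _)
  rw [hH, max_eq_left (by positivity)] at hl1
  have hpT : P / Mk ^ E ≤ Mi ^ E * T := by
    have h1 : P / Mk ^ E = Mi ^ E * (P / (Mi * Mk) ^ E) := by
      rw [mul_pow]; field_simp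
    rw [h1]
    exact mul_le_mul_of_nonneg_left (le_max_left _ _) (by positivity)
  have hqT : Q / Mi' ^ E ≤ Mi ^ E * T := by
    have h1 : Q / Mi' ^ E = Mi ^ E * (Q / (Mi * Mi') ^ E) := by
      rw [mul_pow]; field_simp
    rw [h1]
    exact mul_le_mul_of_nonneg_left (le_max_right _ _) (by positivity)
  have hR1x : R1x / Mi' ^ g1 ≤ A1 * Mi ^ f1 * (Mi ^ E * T) := by
    rw [div_le_iff₀ (by positivity)]
    refine hl1.trans ?_
    calc B1 * (Mi ^ f1 * Mi' ^ g1) * (P / Mk ^ E)
        ≤ A1 * (Mi ^ f1 * Mi' ^ g1) * (Mi ^ E * T) := by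
          refine mul_le_mul (mul_le_mul_of_nonneg_right hB1 (by positivity)) hpT
            (by positivity) (by positivity)
      _ = A1 * Mi ^ f1 * (Mi ^ E * T) * Mi' ^ g1 := by ring
  have hmax : max (Q / Mi' ^ E) (R1x / Mi' ^ g1) ≤ A1 * Mi ^ f1 * (Mi ^ E * T) := by
    refine max_le ?_ hR1x
    refine hqT.trans ?_
    have h1 : (1 : ℝ) ≤ A1 * Mi ^ f1 := one_le_mul_of_one_le_of_one_le hA1 (one_le_pow₀ hMi)
    have h2 : 0 ≤ Mi ^ E * T := by positivity
    nlinarith
  have hmax0 : 0 ≤ max (Q / Mi' ^ E) (R1x / Mi' ^ g1) := le_trans (by positivity) (le_max_left _ _)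
  have hr0x : R0x ≤ A2 * (Mi ^ f2) * (A1 * Mi ^ f1 * (Mi ^ E * T)) := by
    refine hl2.trans ?_
    refine mul_le_mul (mul_le_mul_of_nonneg_right hB2 (by positivity)) hmax hmax0 (by positivity)
  refine hr0x.trans ?_
  have hMpow : Mi ^ (f2 + f1 + E) ≤ Mi ^ D' := pow_le_pow_right₀ hMi hD
  calc A2 * Mi ^ f2 * (A1 * Mi ^ f1 * (Mi ^ E * T))
      = A2 * A1 * Mi ^ (f2 + f1 + E) * T := by rw [pow_add, pow_add]; ring
    _ ≤ A2 * A1 * Mi ^ D' * T := by
        refine mul_le_mul_of_nonneg_right (mul_le_mul_of_nonneg_left hMpow (by positivity)) hT0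

/-- the value of the reversal -/
theorem aeval_rv {K Ω : Type} [Field K] [Field Ω] [Algebra K Ω] {σ : Type} [Fintype σ]
    (a : σ → Bool) (ξ : σ → Ω) (h : MvPolynomial σ K) :
    aeval ξ (rv a h) = hv (algebraMap K Ω) (fun l => h.degreeOf l) h (fun l => pr2 (a l) (ξ l)) := by
  unfold rv hv
  rw [map_sum]
  refine Finset.sum_congr rfl fun m _ => ?_
  rw [map_mul, aeval_C, map_prod]
  congr 1
  refine Finset.prod_congr rfl fun l _ => ?_
  rw [map_mul, map_pow, map_pow]
  by_cases hl : a l = true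
  · simp [hl, pr2]
  · simp [hl, pr2]

theorem t (hRL : S_RL) (hMC : S_MC) : S_MOV := by
  classical
  intro K _ _ σ _ _ i k i' hik hii hki hcard E D p q hE hp hq hpE hqE hpi' hqk
  obtain ⟨mc1, mc2, mc3, mc4⟩ := hMC K σ
  set N := 2 * E * D + E + D with hN
  obtain ⟨B, hB, hstep⟩ := step hRL hMC K σ N
  obtain ⟨Pv, hPv, hPle⟩ := pl_bound hMC σ p hp
  obtain ⟨Qv, hQv, hQle⟩ := pl_bound hMC σ q hq
  have huniv := univ_eq hik hii hki hcard
  have huniv' : (Finset.univ : Finset σ) = {i, i', k} := univ_eq hii hik (Ne.symm hki) hcard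
  have tri : ∀ l : σ, l = i ∨ l = k ∨ l = i' := by
    intro l
    have hl : l ∈ ({i, k, i'} : Finset σ) := by rw [← huniv]; exact Finset.mem_univ l
    simpa using hl
  set Ω := AlgebraicClosure (RatFunc K) with hΩ
  set t : Ω := algebraMap (RatFunc K) Ω RatFunc.X with ht0
  have ht : Transcendental K t :=
    (transcendental_algebraMap_iff (algebraMap (RatFunc K) Ω).injective).2 RatFunc.transcendental_X
  set Zp : Finset (Bool × Ω) :=
    (Fp i k t p).roots.toFinset.image (fun s => (true, s)) ∪ {(false, 0)} with hZp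
  set Zq : Finset (Bool × Ω) :=
    (Fp i i' t q).roots.toFinset.image (fun s => (true, s)) ∪ {(false, 0)} with hZq
  set asg : (Bool × Ω) × (Bool × Ω) → (σ → Bool) × (σ → Ω) := fun z =>
    (fun l => if l = k then z.1.1 else if l = i' then z.2.1 else true,
      fun l => if l = k then z.1.2 else if l = i' then z.2.2 else t) with hasg
  set cB := PS (fun v : AbsoluteValue K ℝ => Real.log (B v)) with hcB
  set cP := PS (fun v : AbsoluteValue K ℝ => Real.log (Pv v)) with hcP
  set cQ := PS (fun v : AbsoluteValue K ℝ => Real.log (Qv v)) with hcQ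
  have hcB0 : 0 ≤ cB := plc_nonneg hB
  have hcP0 : 0 ≤ cP := plc_nonneg hPv
  have hcQ0 : 0 ≤ cQ := plc_nonneg hQv
  refine ⟨2 * E * N + N + E, 2 * cB + N * cQ + D * cP + E * cB + E * (D * cP) + E + E * E,
    (Zp ×ˢ Zq).image asg, by positivity, fun h hirr hD => ?_⟩
  -- the normalised polynomial
  obtain ⟨c, m0, hc, -, hm0⟩ := exists_unit σ h hirr.ne_zero
  set g := c⁻¹ • h with hg
  have hcinv : c⁻¹ ≠ 0 := inv_ne_zero hc
  have hgd : ∀ l, g.degreeOf l ≤ h.degreeOf l := by
    intro l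
    rw [hg, ← C_mul']
    exact degreeOf_C_mul_le _ _ _
  have hPH : PH g = PH h := by rw [hg, ← C_mul']; exact mc4 c⁻¹ h hcinv
  obtain ⟨hGpl, hGps, -⟩ := mc1 g ⟨m0, hm0⟩
  rw [hPH] at hGps
  set L := Real.log (PH h) with hL
  have hL0 : 0 ≤ L := by rw [← hGps]; exact plc_nonneg hGpl
  set a1 : σ → ℕ := fun l => if l = i' then 0 else E with ha1
  set a2 : σ → ℕ := fun l => if l = k then 0 else E with ha2
  obtain ⟨hEN, hDN⟩ := nD hN
  have ha1k : a1 k = E := by simp [ha1, hki]
  have ha1i : a1 i = E := by simp [ha1, hii]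
  have ha1i' : a1 i' = 0 := by simp [ha1]
  have ha2k : a2 k = 0 := by simp [ha2]
  have ha2i : a2 i = E := by simp [ha2, hik]
  have ha2i' : a2 i' = E := by simp [ha2, Ne.symm hki]
  have ha1E : ∀ l, a1 l ≤ E := by intro l; by_cases hl : l = i' <;> simp [ha1, hl]
  have hpa1 : ∀ l, p.degreeOf l ≤ a1 l := by
    intro l
    rcases tri l with rfl | rfl | rfl
    · rw [ha1i]; exact hpE _
    · rw [ha1k]; exact hpE _
    · rw [hpi']; exact Nat.zero_le _
  have hqa2 : ∀ l, q.degreeOf l ≤ a2 l := by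
    intro l
    rcases tri l with rfl | rfl | rfl
    · rw [ha2i]; exact hqE _
    · rw [hqk]; exact Nat.zero_le _
    · rw [ha2i']; exact hqE _
  obtain ⟨R1, e1, he1k, he1, hR1d, hNV1, hco1, hloc1⟩ := hstep k a1 (fun l => h.degreeOf l) p g
    (fun l => ⟨(ha1E l).trans hEN, (hD l).trans hDN⟩) (by rw [ha1k]; exact hE) hpa1 hgd
  have he1N : ∀ l, e1 l ≤ N := by
    intro l
    refine (he1 l).trans ?_
    rw [ha1k]
    exact nA hN (hD k) (ha1E l) (hD l)
  have ha2E : ∀ l, a2 l ≤ E := by intro l; by_cases hl : l = k <;> simp [ha2, hl]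
  obtain ⟨r0, e2, he2i', he2, hr0d, hNV2, hco2, hloc2⟩ := hstep i' a2 e1 q R1
    (fun l => ⟨(ha2E l).trans hEN, he1N l⟩) (by rw [ha2i']; exact hE) hqa2 hR1d
  by_cases hr0 : r0 = 0
  · -- the first alternative
    left
    set y0 : σ → Fin 2 → Ω := fun l => if l = i then ![t, 1] else ![0, 1] with hy0
    obtain ⟨u', hu', hq0, hR10⟩ := hNV2 Ω y0 (by rw [hr0]; exact hv_zero _ _ _)
    obtain ⟨u, hu, hp0, hg0⟩ := hNV1 Ω (Function.update y0 i' u') hR10
    obtain ⟨b, s, w, hw, hus, hbs⟩ := normalise u hu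
    obtain ⟨b', s', w', hw', hus', hbs'⟩ := normalise u' hu'
    set z := asg ((b, s), (b', s')) with hz
    have hz1i : z.1 i = true := by simp [hz, hasg, hik, hii]
    have hz1k : z.1 k = b := by simp [hz, hasg]
    have hz1i' : z.1 i' = b' := by simp [hz, hasg, Ne.symm hki]
    have hz2i : z.2 i = t := by simp [hz, hasg, hik, hii]
    have hz2k : z.2 k = s := by simp [hz, hasg]
    have hz2i' : z.2 i' = s' := by simp [hz, hasg, Ne.symm hki]
    -- the pairs
    set cc : σ → Ω := fun l => if l = k then w else if l = i' then w' else 1 with hcc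
    have hccne : ∀ l, cc l ≠ 0 := by
      intro l
      rcases tri l with rfl | rfl | rfl
      · simp [hcc, hik, hii]
      · simpa [hcc] using hw
      · simpa [hcc, Ne.symm hki] using hw'
    have hyz : Function.update (Function.update y0 i' u') k u =
        fun l => cc l • pr2 (z.1 l) (z.2 l) := by
      funext l
      rcases tri l with rfl | rfl | rfl
      · rw [Function.update_of_ne hik, Function.update_of_ne hii, hz1i, hz2i]
        simp [hcc, hik, hii, hy0, pr2]
      · rw [Function.update_self, hz1k, hz2k, hus]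
        simp [hcc]
      · rw [Function.update_of_ne (Ne.symm hki), Function.update_self, hz1i', hz2i', hus']
        simp [hcc, Ne.symm hki]
    have hprod : ∀ e : σ → ℕ, (∏ l, cc l ^ e l) ≠ 0 := fun e =>
      Finset.prod_ne_zero_iff.2 fun l _ => pow_ne_zero _ (hccne l)
    rw [hyz, hv_hom _ _ _ _ _ hpa1] at hp0
    rw [hyz, hv_hom _ _ _ _ _ hgd] at hg0
    have hp1 := (mul_eq_zero.1 hp0).resolve_left (hprod _)
    have hg1 := (mul_eq_zero.1 hg0).resolve_left (hprod _)
    -- the pairs for `q`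
    have hq1 : hv (algebraMap K Ω) a2 q (fun l => pr2 (z.1 l) (z.2 l)) = 0 := by
      have h1 : hv (algebraMap K Ω) a2 q (Function.update (Function.update y0 i' u') k u) = 0 := by
        rw [hv_update _ _ _ _ _ _ hqk ha2k]
        exact hq0
      rw [hyz, hv_hom _ _ _ _ _ hqa2] at h1
      exact (mul_eq_zero.1 h1).resolve_left (hprod _)
    refine ⟨z, ?_, ?_⟩
    · refine Finset.mem_image.2 ⟨((b, s), (b', s')), Finset.mem_product.2 ⟨?_, ?_⟩, rfl⟩
      · cases b with
        | false =>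
          rw [hbs rfl]
          exact Finset.mem_union_right _ (Finset.mem_singleton_self _)
        | true =>
          obtain ⟨hr, hne⟩ := mem_of_zero huniv hik hii hki t s ht p hp a1 hpa1 ha1i'
            (fun l => pr2 (z.1 l) (z.2 l)) (by simp [hz1i, hz2i, pr2]) (by simp [hz1k, hz2k, pr2]) hp1
          refine Finset.mem_union_left _ (Finset.mem_image.2 ⟨s, ?_, rfl⟩)
          rw [Multiset.mem_toFinset]
          exact (Polynomial.mem_roots hne).2 hr
      · cases b' with
        | false =>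
          rw [hbs' rfl]
          exact Finset.mem_union_right _ (Finset.mem_singleton_self _)
        | true =>
          obtain ⟨hr, hne⟩ := mem_of_zero huniv' hii hik (Ne.symm hki) t s' ht q hq a2 hqa2 ha2k
            (fun l => pr2 (z.1 l) (z.2 l)) (by simp [hz1i, hz2i, pr2]) (by simp [hz1i', hz2i', pr2]) hq1
          refine Finset.mem_union_left _ (Finset.mem_image.2 ⟨s', ?_, rfl⟩)
          rw [Multiset.mem_toFinset]
          exact (Polynomial.mem_roots hne).2 hr
    · rw [aeval_rv]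
      rw [hg, hv_smul _ _ _ _ hcinv] at hg1
      exact (mul_eq_zero.1 hg1).resolve_left fun h0 => hcinv ((map_eq_zero _).1 h0)
  · -- the second alternative
    right
    obtain ⟨cr, mr, hcr, hmr, hmr1⟩ := exists_unit σ r0 hr0
    set r := cr⁻¹ • r0 with hr
    have hcrinv : cr⁻¹ ≠ 0 := inv_ne_zero hcr
    set G : AbsoluteValue K ℝ → ℝ := fun v => mc v g with hG
    set A1 : AbsoluteValue K ℝ → ℝ := fun v => B v * Pv v ^ D * G v ^ E with hA1
    set A2 : AbsoluteValue K ℝ → ℝ := fun v => B v * Qv v ^ N * A1 v ^ E with hA2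
    obtain ⟨hPD, hPDs⟩ := plc_pow hPv D
    obtain ⟨hGE, hGEs⟩ := plc_pow hGpl E
    obtain ⟨hBP, hBPs⟩ := plc_mul hB hPD
    obtain ⟨hA1pl, hA1s⟩ := plc_mul hBP hGE
    obtain ⟨hQN, hQNs⟩ := plc_pow hQv N
    obtain ⟨hBQ, hBQs⟩ := plc_mul hB hQN
    obtain ⟨hA1E, hA1Es⟩ := plc_pow hA1pl E
    obtain ⟨hA2pl, hA2s⟩ := plc_mul hBQ hA1E
    have sA1 : PS (fun v => Real.log (A1 v)) = cB + D * cP + E * L := by
      rw [hA1]
      simp only [hG]
      rw [hA1s, hBPs, hPDs, hGEs, hGps]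
    have sA2 : PS (fun v => Real.log (A2 v)) = cB + N * cQ + E * (cB + D * cP + E * L) := by
      rw [← sA1]
      rw [hA2, hA1]
      simp only [hG]
      rw [hA2s, hBQs, hQNs, hA1Es]
    have pA1 : PlC A1 := hA1pl
    have pA2 : PlC A2 := hA2pl
    -- the coefficients
    have hk1 : ∀ v : AbsoluteValue K ℝ,
        B v * max 1 (mc v p) ^ h.degreeOf k * max 1 (mc v g) ^ a1 k ≤ A1 v := by
      intro v
      have h1 : max 1 (mc v p) ^ h.degreeOf k ≤ Pv v ^ D :=
        (pow_le_pow_left₀ (zero_le_one.trans (le_max_left _ _)) (hPle v) _).trans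
          (pow_le_pow_right₀ (hPv.one_le v) (hD k))
      have h2 : max 1 (mc v g) ^ a1 k = G v ^ E := by
        rw [ha1k, max_eq_right (hGpl.one_le v)]
      rw [h2, hA1]
      have hb := hB.one_le v
      have h3 : (0 : ℝ) ≤ G v ^ E := pow_nonneg (zero_le_one.trans (hGpl.one_le v)) _
      exact mul_le_mul_of_nonneg_right (mul_le_mul_of_nonneg_left h1 (zero_le_one.trans hb)) h3
    have hmcR1 : ∀ v : AbsoluteValue K ℝ, max 1 (mc v R1) ≤ A1 v := fun v =>
      max_le (pA1.one_le v) (ciSup_le fun m => (hco1 v m).trans (hk1 v))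
    have hk2 : ∀ v : AbsoluteValue K ℝ,
        B v * max 1 (mc v q) ^ e1 i' * max 1 (mc v R1) ^ a2 i' ≤ A2 v := by
      intro v
      have h1 : max 1 (mc v q) ^ e1 i' ≤ Qv v ^ N :=
        (pow_le_pow_left₀ (zero_le_one.trans (le_max_left _ _)) (hQle v) _).trans
          (pow_le_pow_right₀ (hQv.one_le v) (he1N i'))
      have h2 : max 1 (mc v R1) ^ a2 i' ≤ A1 v ^ E := by
        rw [ha2i']
        exact pow_le_pow_left₀ (zero_le_one.trans (le_max_left _ _)) (hmcR1 v) _
      have hb := hB.one_le v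
      have hq1 : (0 : ℝ) ≤ Qv v ^ N := pow_nonneg (zero_le_one.trans (hQv.one_le v)) _
      rw [hA2]
      refine mul_le_mul (mul_le_mul_of_nonneg_left h1 (zero_le_one.trans hb)) h2
        (pow_nonneg (zero_le_one.trans (le_max_left _ _)) _) (mul_nonneg (zero_le_one.trans hb) hq1)
    have hr0ne : r0 ≠ 0 := hr0
    have hlogr0 : Real.log (PH r0) ≤ PS (fun v => Real.log (A2 v)) :=
      mc3 r0 A2 hr0ne pA2 fun v m => (hco2 v m).trans (hk2 v)
    have hPHr : PH r = PH r0 := by rw [hr, ← C_mul']; exact mc4 cr⁻¹ r0 hcrinv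
    have hbound : PS (fun v => Real.log (A2 v)) + PS (fun v => Real.log (A1 v)) ≤
        (2 * cB + N * cQ + D * cP + E * cB + E * (D * cP) + E + E * E) * (1 + L) := by
      rw [sA1, sA2]
      exact rA E D N hcB0 hcP0 hcQ0 hL0
    have hA1n : 0 ≤ PS (fun v => Real.log (A1 v)) := plc_nonneg pA1
    have hvcr : ∀ v : AbsoluteValue K ℝ, 0 < v cr := fun v => v.pos hcr
    have hcrA : ∀ v : AbsoluteValue K ℝ, v cr ≤ A2 v := by
      intro v
      rw [← hmr]
      exact (hco2 v mr).trans (hk2 v)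
    have hlogS : (fun v : AbsoluteValue K ℝ => Real.log (A2 v * A1 v / v cr)) =
        fun v => (Real.log (A2 v) + Real.log (A1 v)) - Real.log (v cr) := by
      funext v
      have h1 := pA1.one_le v
      have h2 := pA2.one_le v
      rw [Real.log_div (by positivity) (hvcr v).ne', Real.log_mul (by positivity) (by positivity)]
    refine ⟨r, fun v => A2 v * A1 v / v cr, ?_, ?_, ?_, ⟨?_, ?_⟩, ?_, ?_⟩
    · intro h0
      rw [h0, coeff_zero] at hmr1
      exact zero_ne_one hmr1
    · intro l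
      have h1 : r.degreeOf l ≤ e2 l := by
        refine le_trans ?_ (hr0d l)
        rw [hr, ← C_mul']
        exact degreeOf_C_mul_le _ _ _
      refine h1.trans ?_
      rcases tri l with rfl | rfl | rfl
      · rw [if_pos rfl]
        refine (he2 _).trans ?_
        rw [ha2i, ha2i']
        exact nB (he1N i') (he1N _)
      · refine (he2 _).trans ?_
        rw [ha2k, he1k, mul_zero, mul_zero]
        exact Nat.zero_le _
      · rw [he2i']
        exact Nat.zero_le _
    · intro m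
      refine ((mc1 r ⟨mr, hmr1⟩).2.2 m).trans ?_
      rw [hPHr]
      linarith
    · intro v
      rw [one_le_div (hvcr v)]
      exact rS (pA1.one_le v) (pA2.one_le v) (hcrA v)
    · rw [hlogS]
      exact (pA2.fin.add pA1.fin).sub (FS_log hcr)
    · rw [hlogS, PS_sub (pA2.fin.add pA1.fin) (FS_log hcr), PS_add pA2.fin pA1.fin, PS_log hcr, sub_zero]
      exact hbound
    · intro v x hx
      -- first step
      have her1 : (Finset.univ : Finset σ).erase k = {i, i'} := by
        rw [huniv]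
        ext l
        simp only [Finset.mem_erase, Finset.mem_insert, Finset.mem_singleton]
        constructor
        · rintro ⟨h1, h2 | h2 | h2⟩
          · exact Or.inl h2
          · exact absurd h2 h1
          · exact Or.inr h2
        · rintro (h2 | h2)
          · exact ⟨by rw [h2]; exact hik, Or.inl h2⟩
          · exact ⟨by rw [h2]; exact Ne.symm hki, Or.inr (Or.inr h2)⟩
      have her2 : (Finset.univ : Finset σ).erase i' = {i, k} := by
        rw [huniv]
        ext l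
        simp only [Finset.mem_erase, Finset.mem_insert, Finset.mem_singleton]
        constructor
        · rintro ⟨h1, h2 | h2 | h2⟩
          · exact Or.inl h2
          · exact Or.inr h2
          · exact absurd h2 h1
        · rintro (h2 | h2)
          · exact ⟨by rw [h2]; exact hii, Or.inl h2⟩
          · exact ⟨by rw [h2]; exact hki, Or.inr (Or.inl h2)⟩
      have hgx : eval x g = 0 := by rw [hg, smul_eval, hx, mul_zero]
      have hl1 := hloc1 v x
      rw [ha1k, her1, Finset.prod_pair hii] at hl1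
      have hl2 := hloc2 v x
      have he2k : e2 k = 0 := by
        have := he2 k
        rw [ha2k, he1k, mul_zero, mul_zero] at this
        exact Nat.le_zero.1 this
      rw [her2, Finset.prod_pair hik, he2k, pow_zero, mul_one, ha2i'] at hl2
      have hH0 : v (eval x g) / Mv v (x k) ^ h.degreeOf k = 0 := by rw [hgx, map_zero, zero_div]
      have hb1 := hk1 v
      rw [ha1k] at hb1
      have hb2 := hk2 v
      rw [ha2i'] at hb2
      have he2i := he2 i
      rw [ha2i, ha2i'] at he2i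
      have hrx : v (eval x r) = v (eval x r0) / v cr := by
        rw [hr, smul_eval, map_mul, map_inv₀, div_eq_inv_mul]
      show v (eval x r) ≤ A2 v * A1 v / v cr * Mv v (x i) ^ (2 * E * N + N + E) * _
      rw [hrx, div_mul_eq_mul_div, div_mul_eq_mul_div]
      refine div_le_div_of_nonneg_right ?_ (hvcr v).le
      exact rL (one_le_Mv v (x i)) (one_le_Mv v (x k)) (one_le_Mv v (x i')) (v.nonneg _) (v.nonneg _)
        (pA1.one_le v) (pA2.one_le v) hb1 hb2 hH0 hl1 hl2 (nC (he1N i') (he1N i) he2i)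

end

end Pool.Agent.Helper39.T3.MOV
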