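import Pool.Agent.Helper60.T3.Defs

/-! # T3, MOV: the forms `hv` -/

set_option autoImplicit false

open MvPolynomial

namespace Pool.Agent.Helper39.T3

open Pool.Agent.Helper5.UN (hv)
open Pool.Agent.Helper60.T3

noncomputable section

section forms

variable {K Ω : Type} [Field K] [Field Ω] {σ : Type} [Fintype σ] [DecidableEq σ]

theorem hv_zero (φ : K →+* Ω) (e : σ → ℕ) (y : σ → Fin 2 → Ω) : hv φ e 0 y = 0 := by
  simp [hv]

theorem hv_smul (φ : K →+* Ω) (e : σ → ℕ) (f : MvPolynomial σ K) (y : σ → Fin 2 → Ω) {c : K}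
    (hc : c ≠ 0) : hv φ e (c • f) y = φ c * hv φ e f y := by
  unfold hv
  rw [MvPolynomial.support_smul_eq hc, Finset.mul_sum]
  refine Finset.sum_congr rfl fun m _ => ?_
  rw [coeff_smul, smul_eq_mul, map_mul, mul_assoc]

/-- homogeneity in each pair -/
theorem hv_hom (φ : K →+* Ω) (e : σ → ℕ) (f : MvPolynomial σ K) (y : σ → Fin 2 → Ω) (c : σ → Ω)
    (hf : ∀ l, f.degreeOf l ≤ e l) :
    hv φ e f (fun l => c l • y l) = (∏ l, c l ^ e l) * hv φ e f y := by
  unfold hv
  rw [Finset.mul_sum]
  refine Finset.sum_congr rfl fun m hm => ?_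
  rw [mul_left_comm, ← Finset.prod_mul_distrib]
  congr 1
  refine Finset.prod_congr rfl fun l _ => ?_
  have h1 : m l ≤ e l := (monomial_le_degreeOf l hm).trans (hf l)
  have h2 : c l ^ e l = c l ^ m l * c l ^ (e l - m l) := by
    rw [← pow_add]; congr 1; omega
  rw [h2]
  simp only [Pi.smul_apply, smul_eq_mul, mul_pow]
  ring

/-- the pair of a variable which does not occur does not matter -/
theorem hv_update (φ : K →+* Ω) (e : σ → ℕ) (f : MvPolynomial σ K) (y : σ → Fin 2 → Ω) (k : σ)
    (u : Fin 2 → Ω) (hf : f.degreeOf k = 0) (he : e k = 0) :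
    hv φ e f (Function.update y k u) = hv φ e f y := by
  unfold hv
  refine Finset.sum_congr rfl fun m hm => ?_
  congr 1
  refine Finset.prod_congr rfl fun l _ => ?_
  by_cases hl : l = k
  · subst hl
    have h1 : m l = 0 := by
      have := monomial_le_degreeOf l hm
      omega
    simp [h1, he]
  · rw [Function.update_of_ne hl]

/-- a binary form as a sum -/
theorem hv_split (φ : K →+* Ω) (e : σ → ℕ) (f : MvPolynomial σ K) (y : σ → Fin 2 → Ω) (k : σ)
    (u : Fin 2 → Ω) :
    hv φ e f (Function.update y k u) =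
      ∑ m ∈ f.support, (φ (coeff m f) * ∏ l ∈ Finset.univ.erase k, (y l 0 ^ m l * y l 1 ^ (e l - m l))) *
        (u 0 ^ m k * u 1 ^ (e k - m k)) := by
  unfold hv
  refine Finset.sum_congr rfl fun m _ => ?_
  rw [← Finset.prod_erase_mul (Finset.univ) _ (Finset.mem_univ k), mul_assoc]
  congr 1
  rw [Function.update_self]
  congr 1
  refine Finset.prod_congr rfl fun l hl => ?_
  rw [Function.update_of_ne (Finset.ne_of_mem_erase hl)]

/-- a binary form of positive degree has a nontrivial zero -/
theorem exists_zero [IsAlgClosed Ω] (φ : K →+* Ω) (e : σ → ℕ) (f : MvPolynomial σ K)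
    (y : σ → Fin 2 → Ω) (k : σ) (hf : f.degreeOf k ≤ e k) (he : 1 ≤ e k) :
    ∃ u : Fin 2 → Ω, u ≠ 0 ∧ hv φ e f (Function.update y k u) = 0 := by
  set w : (σ →₀ ℕ) → Ω := fun m =>
    φ (coeff m f) * ∏ l ∈ Finset.univ.erase k, (y l 0 ^ m l * y l 1 ^ (e l - m l)) with hw
  set F : Polynomial Ω := ∑ m ∈ f.support, Polynomial.C (w m) * Polynomial.X ^ m k with hF
  have hle : ∀ m ∈ f.support, m k ≤ e k := fun m hm => (monomial_le_degreeOf k hm).trans hf
  by_cases h0 : F.coeff (e k) = 0
  · refine ⟨![1, 0], ?_, ?_⟩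
    · intro h
      have := congrFun h 0
      simp at this
    · refine Eq.trans ?_ h0
      rw [hv_split, hF, Polynomial.finset_sum_coeff]
      refine Finset.sum_congr rfl fun m hm => ?_
      rw [Polynomial.coeff_C_mul, Polynomial.coeff_X_pow]
      simp only [Matrix.cons_val_zero, Matrix.cons_val_one, one_pow, one_mul]
      by_cases hmk : e k = m k
      · rw [if_pos hmk, hmk, Nat.sub_self, pow_zero]
      · have hlt : e k - m k ≠ 0 := by
          have := hle m hm
          omega
        rw [if_neg hmk, zero_pow hlt]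
  · have hdeg : F.degree ≠ 0 := by
      intro h
      have h1 := Polynomial.eq_C_of_degree_eq_zero h
      rw [h1, Polynomial.coeff_C] at h0
      rw [if_neg (by omega)] at h0
      exact h0 rfl
    obtain ⟨ζ, hζ⟩ := IsAlgClosed.exists_root F hdeg
    refine ⟨![ζ, 1], ?_, ?_⟩
    · intro h
      have := congrFun h 1
      simp at this
    · rw [hv_split]
      rw [Polynomial.IsRoot, hF, Polynomial.eval_finsetSum] at hζ
      refine Eq.trans ?_ hζ
      refine Finset.sum_congr rfl fun m _ => ?_
      rw [Polynomial.eval_mul, Polynomial.eval_C, Polynomial.eval_pow, Polynomial.eval_X]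
      simp only [Matrix.cons_val_zero, Matrix.cons_val_one, one_pow, mul_one, hw]

end forms

/-! ## Normalised pairs -/

section norm

variable {Ω : Type} [Field Ω]

/-- the pair `(s, 1)` or `(1, s)` -/
def pr2 (b : Bool) (s : Ω) : Fin 2 → Ω := if b = true then ![s, 1] else ![1, s]

theorem normalise (u : Fin 2 → Ω) (hu : u ≠ 0) :
    ∃ (b : Bool) (s c : Ω), c ≠ 0 ∧ u = c • pr2 b s ∧ (b = false → s = 0) := by
  by_cases h : u 1 = 0
  · refine ⟨false, 0, u 0, ?_, ?_, fun _ => rfl⟩
    · intro h0
      apply hu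
      ext i
      fin_cases i
      · simpa using h0
      · simpa using h
    · ext i
      fin_cases i <;> simp [pr2, h]
  · refine ⟨true, u 0 / u 1, u 1, h, ?_, fun h' => by cases h'⟩
    ext i
    fin_cases i
    · simp [pr2]; field_simp
    · simp [pr2]

end norm

end

end Pool.Agent.Helper39.T3
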