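import Pool.Agent.Helper39.T3.Alg

/-! # T3, MOV: one elimination step, place constants, the finite set -/

set_option autoImplicit false

open MvPolynomial

namespace Pool.Agent.Helper39.T3

open Height Height.AdmissibleAbsValues
open Pool.Agent.Helper29.BL Pool.Agent.Helper92.Ru Pool.Agent.Helper42.SG
open Pool.Agent.Helper5.UN (hv)
open Pool.Agent.Helper60.T3

noncomputable section

/-- one elimination step; if `h` does not contain `X_k` it is `h` itself -/
theorem step (hRL : S_RL) (hMC : S_MC) (K : Type) [Field K] [NumberField K] (σ : Type) [Fintype σ]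
    [DecidableEq σ] (N : ℕ) :
    ∃ B : AbsoluteValue K ℝ → ℝ, PlC B ∧ ∀ (k : σ) (a b : σ → ℕ) (p h : MvPolynomial σ K),
      (∀ l, a l ≤ N ∧ b l ≤ N) → 1 ≤ a k → (∀ l, p.degreeOf l ≤ a l) →
      (∀ l, h.degreeOf l ≤ b l) →
      ∃ (R : MvPolynomial σ K) (e : σ → ℕ), e k = 0 ∧ (∀ l, e l ≤ b k * a l + a k * b l) ∧
        (∀ l, R.degreeOf l ≤ e l) ∧
        (∀ (Ω : Type) [Field Ω] [Algebra K Ω] [IsAlgClosed Ω] (y : σ → Fin 2 → Ω),
          hv (algebraMap K Ω) e R y = 0 →
          ∃ u : Fin 2 → Ω, u ≠ 0 ∧ hv (algebraMap K Ω) a p (Function.update y k u) = 0 ∧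
            hv (algebraMap K Ω) b h (Function.update y k u) = 0) ∧
        (∀ (v : AbsoluteValue K ℝ) m, v (coeff m R) ≤
          B v * max 1 (mc v p) ^ b k * max 1 (mc v h) ^ a k) ∧
        ∀ (v : AbsoluteValue K ℝ) (x : σ → K), v (eval x R) ≤
          B v * max 1 (mc v p) ^ b k * max 1 (mc v h) ^ a k *
            (∏ l ∈ Finset.univ.erase k, Mv v (x l) ^ e l) *
            max (v (eval x p) / Mv v (x k) ^ a k) (v (eval x h) / Mv v (x k) ^ b k) := by
  obtain ⟨B, hB, hR⟩ := hRL K σ N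
  refine ⟨B, hB, fun k a b p h hN hak hp hh => ?_⟩
  by_cases hbk : b k = 0
  · -- `X_k` does not occur in `h`
    have hc : ∀ v : AbsoluteValue K ℝ, ∀ s : ℝ, 0 ≤ s → max 1 (mc v h) * s ≤
        B v * max 1 (mc v p) ^ b k * max 1 (mc v h) ^ a k * s := by
      intro v s hs
      refine mul_le_mul_of_nonneg_right ?_ hs
      have h1 : (1 : ℝ) ≤ max 1 (mc v h) := le_max_left _ _
      have h2 : max 1 (mc v h) ≤ max 1 (mc v h) ^ a k := le_self_pow₀ h1 (by omega)
      have h3 : (1 : ℝ) ≤ B v * max 1 (mc v p) ^ b k := by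
        rw [hbk, pow_zero, mul_one]
        exact hB.one_le v
      nlinarith [h1, h2, h3]
    refine ⟨h, b, hbk, fun l => ?_, hh, fun Ω _ _ _ y hy => ?_, fun v m => ?_, fun v x => ?_⟩
    · nlinarith [Nat.zero_le (b k * a l), Nat.mul_le_mul_right (b l) hak]
    · obtain ⟨u, hu, hu0⟩ := exists_zero (algebraMap K Ω) a p y k (hp k) hak
      refine ⟨u, hu, hu0, ?_⟩
      rw [hv_update (algebraMap K Ω) b h y k u (by have := hh k; omega) hbk]
      exact hy
    · have := hc v 1 zero_le_one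
      rw [mul_one, mul_one] at this
      exact ((hMC K σ).2.1 v h m).trans ((le_max_right _ _).trans this)
    · have hpr : (1 : ℝ) ≤ ∏ l ∈ Finset.univ.erase k, Mv v (x l) ^ b l :=
        Finset.prod_induction (fun l => Mv v (x l) ^ b l) (fun z : ℝ => 1 ≤ z)
          (fun _ _ => one_le_mul_of_one_le_of_one_le) le_rfl fun l _ => one_le_pow₀ (one_le_Mv v (x l))
      have h1 := hc v 1 zero_le_one
      rw [mul_one, mul_one] at h1
      have h2 : (1 : ℝ) ≤ B v * max 1 (mc v p) ^ b k * max 1 (mc v h) ^ a k :=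
        (le_max_left _ _).trans h1
      have h3 : v (eval x h) ≤ max (v (eval x p) / Mv v (x k) ^ a k) (v (eval x h) / Mv v (x k) ^ b k) := by
        rw [hbk, pow_zero, div_one]
        exact le_max_right _ _
      have h4 : (0 : ℝ) ≤ v (eval x h) := v.nonneg _
      calc v (eval x h) ≤ 1 * max (v (eval x p) / Mv v (x k) ^ a k) (v (eval x h) / Mv v (x k) ^ b k) := by
            rw [one_mul]; exact h3
        _ ≤ _ := by
            refine mul_le_mul_of_nonneg_right ?_ (h4.trans h3)
            nlinarith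
  · obtain ⟨R, hRd, hRn, hRc, hRl⟩ := hR k a b p h hN hak (Nat.one_le_iff_ne_zero.2 hbk) hp hh
    refine ⟨R, fun l => if l = k then 0 else b k * a l + a k * b l, by simp, fun l => ?_, hRd, ?_, hRc,
      fun v x => ?_⟩
    · by_cases hl : l = k
      · simp [hl]
      · simp [hl]
    · intro Ω _ _ _ y hy
      exact hRn Ω y hy
    · refine (hRl v x).trans (le_of_eq ?_)
      congr 2
      refine Finset.prod_congr rfl fun l hl => ?_
      dsimp only
      rw [if_neg (Finset.ne_of_mem_erase hl)]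

/-! ## Place constants -/

section plc

variable {K : Type} [Field K] [NumberField K]

theorem plc_mul {f g : AbsoluteValue K ℝ → ℝ} (hf : PlC f) (hg : PlC g) :
    PlC (fun v => f v * g v) ∧
      PS (fun v => Real.log (f v * g v)) = PS (fun v => Real.log (f v)) + PS (fun v => Real.log (g v)) := by
  have h : (fun v : AbsoluteValue K ℝ => Real.log (f v * g v)) =
      fun v => Real.log (f v) + Real.log (g v) := by
    funext v
    exact Real.log_mul (by have := hf.one_le v; positivity) (by have := hg.one_le v; positivity)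
  refine ⟨⟨fun v => one_le_mul_of_one_le_of_one_le (hf.one_le v) (hg.one_le v), ?_⟩, ?_⟩
  · rw [h]; exact hf.fin.add hg.fin
  · rw [h]; exact PS_add hf.fin hg.fin

theorem plc_pow {f : AbsoluteValue K ℝ → ℝ} (hf : PlC f) (n : ℕ) :
    PlC (fun v => f v ^ n) ∧
      PS (fun v => Real.log (f v ^ n)) = n * PS (fun v => Real.log (f v)) := by
  have h : (fun v : AbsoluteValue K ℝ => Real.log (f v ^ n)) = fun v => (n : ℝ) * Real.log (f v) := by
    funext v
    exact Real.log_pow _ _
  refine ⟨⟨fun v => one_le_pow₀ (hf.one_le v), ?_⟩, ?_⟩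
  · rw [h]; exact hf.fin.const_mul _
  · rw [h]; exact PS_const_mul _ _

theorem plc_nonneg {f : AbsoluteValue K ℝ → ℝ} (hf : PlC f) : 0 ≤ PS (fun v => Real.log (f v)) :=
  PS_nonneg hf.fin fun v => Real.log_nonneg (hf.one_le v)

theorem plc_Mv (c : K) : PlC (fun v : AbsoluteValue K ℝ => Mv v c) :=
  ⟨fun v => one_le_Mv v c, FS_log_Mv c⟩

theorem exists_unit (σ : Type) (p : MvPolynomial σ K) (hp : p ≠ 0) :
    ∃ (c : K) (m : σ →₀ ℕ), c ≠ 0 ∧ coeff m p = c ∧ coeff m (c⁻¹ • p) = 1 := by
  obtain ⟨m, hm⟩ := MvPolynomial.ne_zero_iff.1 hp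
  exact ⟨coeff m p, m, hm, rfl, by rw [coeff_smul, smul_eq_mul, inv_mul_cancel₀ hm]⟩

theorem pl_bound (hMC : S_MC) (σ : Type) (p : MvPolynomial σ K) (hp : p ≠ 0) :
    ∃ P : AbsoluteValue K ℝ → ℝ, PlC P ∧ ∀ v, max 1 (mc v p) ≤ P v := by
  obtain ⟨c, m, hc, -, h1⟩ := exists_unit σ p hp
  have hpl := ((hMC K σ).1 (c⁻¹ • p) ⟨m, h1⟩).1
  refine ⟨fun v => Mv v c * mc v (c⁻¹ • p), (plc_mul (plc_Mv c) hpl).1, fun v => ?_⟩
  refine max_le (one_le_mul_of_one_le_of_one_le (one_le_Mv v c) (hpl.one_le v)) ?_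
  refine ciSup_le fun m' => ?_
  have h2 : coeff m' p = c * coeff m' (c⁻¹ • p) := by
    rw [coeff_smul, smul_eq_mul, mul_inv_cancel_left₀ hc]
  rw [h2, map_mul]
  exact mul_le_mul (le_max_right _ _) ((hMC K σ).2.1 v _ m') (v.nonneg _)
    (zero_le_one.trans (one_le_Mv v c))

end plc

/-! ## The finite set -/

section fin

variable {K Ω : Type} [Field K] [Field Ω] [Algebra K Ω] {σ : Type} [Fintype σ] [DecidableEq σ]

/-- the polynomial `p(t, T)` -/
def Fp (i k : σ) (t : Ω) (p : MvPolynomial σ K) : Polynomial Ω :=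
  ∑ m ∈ p.support, Polynomial.C (algebraMap K Ω (coeff m p) * t ^ m i) * Polynomial.X ^ m k

theorem univ_eq {i k i' : σ} (hik : i ≠ k) (hii : i ≠ i') (hki : k ≠ i')
    (hc : Fintype.card σ = 3) : (Finset.univ : Finset σ) = {i, k, i'} := by
  symm
  apply Finset.eq_univ_of_card
  rw [hc, Finset.card_insert_of_notMem (by simp [hik, hii]), Finset.card_insert_of_notMem (by simp [hki]),
    Finset.card_singleton]

theorem Fp_ne {i k i' : σ} (hu : (Finset.univ : Finset σ) = {i, k, i'}) {t : Ω}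
    (ht : Transcendental K t) (p : MvPolynomial σ K) (hp : p ≠ 0) (hd : p.degreeOf i' = 0) :
    Fp i k t p ≠ 0 := by
  intro h0
  obtain ⟨m0, hm0⟩ := MvPolynomial.ne_zero_iff.1 hp
  have hm0s : m0 ∈ p.support := MvPolynomial.mem_support_iff.2 hm0
  set g : Polynomial K := ∑ m ∈ p.support with m k = m0 k, Polynomial.C (coeff m p) * Polynomial.X ^ m i
    with hg
  have h1 : Polynomial.aeval t g = 0 := by
    have h2 : (Fp i k t p).coeff (m0 k) = 0 := by rw [h0, Polynomial.coeff_zero]
    rw [Fp, Polynomial.finsetSum_coeff] at h2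
    rw [hg, map_sum, Finset.sum_filter]
    refine Eq.trans (Finset.sum_congr rfl fun m _ => ?_) h2
    rw [Polynomial.coeff_C_mul, Polynomial.coeff_X_pow]
    by_cases hmk : m k = m0 k
    · rw [if_pos hmk, if_pos hmk.symm, map_mul, Polynomial.aeval_C, map_pow, Polynomial.aeval_X, mul_one]
    · rw [if_neg hmk, if_neg (fun h => hmk h.symm), mul_zero]
  have h2 : g = 0 := (transcendental_iff.1 ht) g h1
  have h3 : g.coeff (m0 i) = coeff m0 p := by
    rw [hg, Polynomial.finsetSum_coeff, Finset.sum_eq_single_of_mem m0]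
    · rw [Polynomial.coeff_C_mul, Polynomial.coeff_X_pow, if_pos rfl, mul_one]
    · exact Finset.mem_filter.2 ⟨hm0s, rfl⟩
    · intro m hm hne
      rw [Polynomial.coeff_C_mul, Polynomial.coeff_X_pow]
      rw [if_neg, mul_zero]
      intro hmi
      apply hne
      ext l
      have hl : l ∈ ({i, k, i'} : Finset σ) := by rw [← hu]; exact Finset.mem_univ l
      simp only [Finset.mem_insert, Finset.mem_singleton] at hl
      rcases hl with rfl | rfl | rfl
      · exact hmi.symm
      · exact (Finset.mem_filter.1 hm).2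
      · have e1 := monomial_le_degreeOf l (Finset.mem_filter.1 hm).1
        have e2 := monomial_le_degreeOf l hm0s
        omega
  rw [h2, Polynomial.coeff_zero] at h3
  exact hm0 h3.symm

theorem hv_eq_eval {i k i' : σ} (hu : (Finset.univ : Finset σ) = {i, k, i'}) (hik : i ≠ k)
    (hii : i ≠ i') (hki : k ≠ i') (t s : Ω) (p : MvPolynomial σ K) (a : σ → ℕ) (ha : a i' = 0)
    (hd : p.degreeOf i' = 0) (y : σ → Fin 2 → Ω) (hy1 : y i = ![t, 1]) (hy2 : y k = ![s, 1]) :
    hv (algebraMap K Ω) a p y = (Fp i k t p).eval s := by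
  unfold hv Fp
  rw [Polynomial.eval_finsetSum]
  refine Finset.sum_congr rfl fun m hm => ?_
  have h1 : m i' = 0 := by
    have := monomial_le_degreeOf i' hm
    omega
  rw [hu, Finset.prod_insert (by simp [hik, hii]), Finset.prod_insert (by simp [hki]),
    Finset.prod_singleton, hy1, hy2, h1, ha, Polynomial.eval_mul, Polynomial.eval_C, Polynomial.eval_pow,
    Polynomial.eval_X]
  simp only [Matrix.cons_val_zero, Matrix.cons_val_one, one_pow, mul_one, pow_zero, Nat.sub_self]
  ring

end fin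

end

end Pool.Agent.Helper39.T3
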